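import Pool.Agent.H174.GP.StI

/-! GP acr: crude bounds for the integrated Gaussian walk -/

set_option autoImplicit false

open MeasureTheory ProbabilityTheory Finset Filter Topology
open Pool.Agent.H174.GP

namespace Pool.Agent.H800.GP174

/-- measurable increasing functions of the coordinates `1..b` -/
structure Good (b : ℕ) (f : (ℕ → ℝ) → ℝ) : Prop where
  meas : Measurable f
  mono : Monotone f
  dep : ∀ ω ω' : ℕ → ℝ, (∀ j ∈ Finset.Icc 1 b, ω j = ω' j) → f ω = f ω'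

lemma meas_S (j : ℕ) : Measurable (fun z : ℕ → ℝ => S z j) := by
  unfold S
  exact Finset.measurable_sum _ fun i _ => measurable_pi_apply i

lemma good_S {b j : ℕ} (h : j ≤ b) : Good b (fun z => S z j) where
  meas := meas_S j
  mono := fun _ _ hz => Finset.sum_le_sum fun i _ => hz i
  dep := fun _ _ hz => Finset.sum_congr rfl fun i hi => hz i (by
    rw [Finset.mem_Icc] at hi ⊢
    omega)

lemma good_I {b j : ℕ} (h : j ≤ b) : Good b (fun z => Iw z j) where
  meas := by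
    unfold Iw
    exact Finset.measurable_sum _ fun i _ => meas_S i
  mono := fun _ _ hz => Finset.sum_le_sum fun i _ => (good_S (le_refl i)).mono hz
  dep := fun z z' hz => Finset.sum_congr rfl fun i hi => (good_S (b := b) (by
    rw [Finset.mem_Icc] at hi
    omega)).dep z z' hz

lemma S_succ (z : ℕ → ℝ) (j : ℕ) : S z (j + 1) = S z j + z (j + 1) := by
  unfold S
  exact Finset.sum_Icc_succ_top (by omega) _

lemma I_succ (z : ℕ → ℝ) (j : ℕ) : Iw z (j + 1) = Iw z j + S z (j + 1) := by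
  unfold Iw
  exact Finset.sum_Icc_succ_top (by omega) _

lemma S_sub {a j : ℕ} (h : a ≤ j) (z : ℕ → ℝ) : S z j - S z a = ∑ i ∈ Finset.Ioc a j, z i := by
  induction j, h using Nat.le_induction with
  | base => simp
  | succ j hj ih =>
    rw [Finset.sum_Ioc_succ_top (by omega), ← ih, S_succ]
    ring

lemma good_D {a b j : ℕ} (haj : a ≤ j) (hjb : j ≤ b) : Good b (fun z => S z j - S z a) := by
  have e : (fun z : ℕ → ℝ => S z j - S z a) = fun z => ∑ i ∈ Finset.Ioc a j, z i :=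
    funext fun z => S_sub haj z
  rw [e]
  refine ⟨Finset.measurable_sum _ fun i _ => measurable_pi_apply i,
    fun _ _ hz => Finset.sum_le_sum fun i _ => hz i, fun _ _ hz => Finset.sum_congr rfl fun i hi =>
      hz i (by
        rw [Finset.mem_Ioc] at hi
        rw [Finset.mem_Icc]
        omega)⟩

lemma good_set {b : ℕ} (X : Finset ℕ) (f : ℕ → (ℕ → ℝ) → ℝ) (x : ℕ → ℝ)
    (h : ∀ j ∈ X, Good b (f j)) :
    MeasurableSet {z : ℕ → ℝ | ∀ j ∈ X, x j ≤ f j z} ∧
      DepOn (Finset.Icc 1 b) {z : ℕ → ℝ | ∀ j ∈ X, x j ≤ f j z} ∧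
      IsUpperSet {z : ℕ → ℝ | ∀ j ∈ X, x j ≤ f j z} := by
  refine ⟨?_, ?_, ?_⟩
  · have e : {z : ℕ → ℝ | ∀ j ∈ X, x j ≤ f j z} = ⋂ j ∈ X, {z | x j ≤ f j z} := by
      ext z
      simp
    rw [e]
    exact Finset.measurableSet_biInter _ fun j hj => measurableSet_le measurable_const (h j hj).meas
  · intro z z' hz hm j hj
    rw [← (h j hj).dep z z' hz]
    exact hm j hj
  · intro z z' hz hm j hj
    exact (hm j hj).trans ((h j hj).mono hz)

/-- law of a linear form -/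
lemma law (I : Finset ℕ) (c : ℕ → ℝ) :
    Measure.map (fun z : ℕ → ℝ => ∑ j ∈ I, c j * z j) GA =
      gaussianReal 0 (∑ j ∈ I, Real.toNNReal (c j ^ 2)) := by
  classical
  induction I using Finset.induction_on with
  | empty =>
    simp only [Finset.sum_empty]
    rw [Measure.map_const, measure_univ, one_smul, gaussianReal_zero_var]
  | insert a I ha ih =>
    have hind : iIndepFun (fun (j : ℕ) (z : ℕ → ℝ) => c j * z j) GA := by
      unfold GA
      exact iIndepFun_infinitePi (X := fun j (x : ℝ) => c j * x) (fun j => by fun_prop)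
    have h1 : IndepFun (∑ j ∈ I, fun z : ℕ → ℝ => c j * z j) (fun z => c a * z a) GA :=
      hind.indepFun_finsetSum_of_notMem (fun j => by fun_prop) ha
    have h2 : GA.map (fun z : ℕ → ℝ => c a * z a) = gaussianReal 0 (Real.toNNReal (c a ^ 2)) := by
      have h3 : GA.map (fun z : ℕ → ℝ => z a) = gaussianReal 0 1 := by
        unfold GA
        exact Measure.infinitePi_map_eval _ a
      have h4 : (fun z : ℕ → ℝ => c a * z a) = (fun x => c a * x) ∘ (fun z : ℕ → ℝ => z a) := rfl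
      rw [h4, ← Measure.map_map (by fun_prop) (by fun_prop), h3, gaussianReal_map_const_mul,
        mul_zero, mul_one]
      congr 1
      apply NNReal.coe_injective
      rw [Real.coe_toNNReal _ (sq_nonneg _)]
      rfl
    have e1 : (∑ j ∈ I, fun z : ℕ → ℝ => c j * z j) = fun z : ℕ → ℝ => ∑ j ∈ I, c j * z j := by
      funext z
      rw [Finset.sum_apply]
    rw [e1] at h1
    have h5 := gaussianReal_add_gaussianReal_of_indepFun h1 ih h2
    rw [Finset.sum_insert ha, add_comm (Real.toNNReal (c a ^ 2))]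
    rw [add_zero] at h5
    rw [← h5]
    congr 1
    funext z
    rw [Finset.sum_insert ha, add_comm]
    rfl

/-- the upper tail of the standard normal distribution -/
noncomputable def qt (T : ℝ) : ℝ := (gaussianReal 0 1).real (Set.Ici T)

lemma qt_pos (T : ℝ) : 0 < qt T := by
  unfold qt
  rw [Measure.real, ENNReal.toReal_pos_iff]
  refine ⟨?_, measure_lt_top _ _⟩
  rw [pos_iff_ne_zero]
  intro h
  have h1 : (volume : Measure ℝ) ≪ gaussianReal 0 1 := gaussianReal_absolutelyContinuous' 0 one_ne_zero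
  have h2 := h1 h
  rw [Real.volume_Ici] at h2
  exact ENNReal.top_ne_zero h2

lemma tail (I : Finset ℕ) (c : ℕ → ℝ) (x T : ℝ) (hT : x ≤ Real.sqrt (∑ j ∈ I, c j ^ 2) * T) :
    qt T ≤ GA.real {z | x ≤ ∑ j ∈ I, c j * z j} := by
  set v : NNReal := ∑ j ∈ I, Real.toNNReal (c j ^ 2) with hv
  have hv1 : (v : ℝ) = ∑ j ∈ I, c j ^ 2 := by
    rw [hv]
    push_cast
    exact Finset.sum_congr rfl fun j _ => max_eq_left (sq_nonneg _)
  set σ := Real.sqrt (∑ j ∈ I, c j ^ 2) with hσ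
  have hσ0 : 0 ≤ σ := Real.sqrt_nonneg _
  have hσ2 : σ ^ 2 = v := by
    rw [hσ, Real.sq_sqrt (Finset.sum_nonneg fun j _ => sq_nonneg _), hv1]
  have h1 : Measure.map (fun y : ℝ => σ * y) (gaussianReal 0 1) = gaussianReal 0 v := by
    rw [gaussianReal_map_const_mul, mul_zero, mul_one]
    congr 1
    exact NNReal.coe_injective hσ2
  have hm : Measurable fun z : ℕ → ℝ => ∑ j ∈ I, c j * z j :=
    Finset.measurable_sum _ fun j _ => (measurable_pi_apply j).const_mul _
  have h2 : GA.real {z | x ≤ ∑ j ∈ I, c j * z j} = (gaussianReal 0 v).real (Set.Ici x) := by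
    rw [hv, ← law I c, map_measureReal_apply hm measurableSet_Ici]
    rfl
  rw [h2, ← h1, map_measureReal_apply (by fun_prop) measurableSet_Ici]
  unfold qt
  refine measureReal_mono ?_
  intro y hy
  exact hT.trans (mul_le_mul_of_nonneg_left hy hσ0)

lemma S_lin (z : ℕ → ℝ) (a : ℕ) : S z a = ∑ j ∈ Finset.Icc 1 a, (1 : ℝ) * z j := by
  unfold S
  simp

lemma I_lin (z : ℕ → ℝ) (a : ℕ) : Iw z a = ∑ j ∈ Finset.Icc 1 a, ((a : ℝ) - j + 1) * z j := by
  induction a with
  | zero => simp [Iw]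
  | succ a ih =>
    rw [I_succ, ih, S_succ, Finset.sum_Icc_succ_top (by omega)]
    unfold S
    push_cast
    have e : ∑ j ∈ Finset.Icc 1 a, ((a : ℝ) + 1 - j + 1) * z j =
        ∑ j ∈ Finset.Icc 1 a, ((a : ℝ) - j + 1) * z j + ∑ j ∈ Finset.Icc 1 a, z j := by
      rw [← Finset.sum_add_distrib]
      exact Finset.sum_congr rfl fun j _ => by ring
    rw [e]
    ring

lemma var1 (a : ℕ) : ∑ j ∈ Finset.Icc 1 a, ((a : ℝ) - j + 1) = (a : ℝ) * (a + 1) / 2 := by
  induction a with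
  | zero => simp
  | succ a ih =>
    rw [Finset.sum_Icc_succ_top (by omega)]
    push_cast
    have e : ∑ j ∈ Finset.Icc 1 a, ((a : ℝ) + 1 - j + 1) =
        ∑ j ∈ Finset.Icc 1 a, ((a : ℝ) - j + 1) + a := by
      have e2 : ∑ j ∈ Finset.Icc 1 a, (1 : ℝ) = a := by simp
      rw [← e2, ← Finset.sum_add_distrib, e2]
      exact Finset.sum_congr rfl fun j _ => by ring
    rw [e, ih]
    ring

lemma var2 (a : ℕ) : ∑ j ∈ Finset.Icc 1 a, ((a : ℝ) - j + 1) ^ 2 =
    (a : ℝ) * (a + 1) * (2 * a + 1) / 6 := by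
  induction a with
  | zero => simp
  | succ a ih =>
    rw [Finset.sum_Icc_succ_top (by omega)]
    push_cast
    have e : ∑ j ∈ Finset.Icc 1 a, ((a : ℝ) + 1 - j + 1) ^ 2 =
        ∑ j ∈ Finset.Icc 1 a, ((a : ℝ) - j + 1) ^ 2 +
          2 * ∑ j ∈ Finset.Icc 1 a, ((a : ℝ) - j + 1) + a := by
      have e2 : ∑ j ∈ Finset.Icc 1 a, (1 : ℝ) = a := by simp
      rw [← e2, Finset.mul_sum, ← Finset.sum_add_distrib, ← Finset.sum_add_distrib, e2]
      exact Finset.sum_congr rfl fun j _ => by ring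
    rw [e, ih, var1]
    ring

lemma pow32 (b : ℕ) : (b : ℝ) ^ (3 / 2 : ℝ) = Real.sqrt ((b : ℝ) ^ 3) := by
  rw [Real.sqrt_eq_rpow, ← Real.rpow_natCast, ← Real.rpow_mul (Nat.cast_nonneg b)]
  norm_num

lemma I_up {z : ℕ → ℝ} {a b : ℕ} (h : ∀ j ∈ Finset.Icc a b, 0 ≤ S z j) {j : ℕ} (haj : a ≤ j)
    (hjb : j ≤ b) : Iw z a ≤ Iw z j := by
  induction j, haj using Nat.le_induction with
  | base => exact le_rfl
  | succ j hj ih =>
    rw [I_succ]
    have h1 := ih (by omega)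
    have h2 := h (j + 1) (Finset.mem_Icc.2 ⟨by omega, hjb⟩)
    linarith

theorem part2 (h1 : S_gharris) (h3 : S_gmaxS) (κ R : ℝ) (hκ : 0 < κ) (hR : 0 < R) :
    ∃ c : ℝ, 0 < c ∧ ∀ a b : ℕ, 1 ≤ a → a ≤ b → κ * b ≤ a →
    c ≤ GA.real {z | (∀ j ∈ Finset.Icc a b, 0 ≤ Iw z j) ∧ R * (b : ℝ) ^ (3 / 2 : ℝ) ≤ Iw z b ∧
      0 ≤ S z b} := by
  refine ⟨qt (R * Real.sqrt (3 / κ ^ 3)) * (1 / 2) * qt (4 * Real.sqrt (1 / κ)),
    mul_pos (mul_pos (qt_pos _) (by norm_num)) (qt_pos _), fun a b ha hab hκa => ?_⟩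
  have hb0 : (0 : ℝ) < b := by
    have : 1 ≤ b := ha.trans hab
    exact_mod_cast this
  have ha0 : (0 : ℝ) < a := by exact_mod_cast ha
  set E1 : Set (ℕ → ℝ) := {z | ∀ j ∈ ({a} : Finset ℕ), R * (b : ℝ) ^ (3 / 2 : ℝ) ≤ Iw z j} with hE1
  set E2 : Set (ℕ → ℝ) := {z | ∀ j ∈ Finset.Icc a b, -(4 * Real.sqrt b) ≤ S z j - S z a} with hE2
  set E3 : Set (ℕ → ℝ) := {z | ∀ j ∈ ({a} : Finset ℕ), 4 * Real.sqrt b ≤ S z j} with hE3
  have g1 := good_set (b := b) {a} (fun j z => Iw z j) (fun _ => R * (b : ℝ) ^ (3 / 2 : ℝ))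
    (fun j hj => good_I (by rw [Finset.mem_singleton] at hj; omega))
  have g2 := good_set (b := b) (Finset.Icc a b) (fun j z => S z j - S z a)
    (fun _ => -(4 * Real.sqrt b)) (fun j hj => good_D (Finset.mem_Icc.1 hj).1 (Finset.mem_Icc.1 hj).2)
  have g3 := good_set (b := b) {a} (fun j z => S z j) (fun _ => 4 * Real.sqrt b)
    (fun j hj => good_S (by rw [Finset.mem_singleton] at hj; omega))
  -- the three probabilities
  have p1 : qt (R * Real.sqrt (3 / κ ^ 3)) ≤ GA.real E1 := by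
    have e : E1 = {z | R * (b : ℝ) ^ (3 / 2 : ℝ) ≤ ∑ j ∈ Finset.Icc 1 a, ((a : ℝ) - j + 1) * z j} := by
      ext z
      simp only [hE1, Finset.mem_singleton, forall_eq, Set.mem_ofPred_eq, I_lin]
    rw [e]
    refine tail (Finset.Icc 1 a) (fun j => (a : ℝ) - j + 1) _ _ ?_
    rw [var2, pow32]
    have h5 : Real.sqrt ((b : ℝ) ^ 3) ≤
        Real.sqrt ((a : ℝ) * (a + 1) * (2 * a + 1) / 6) * Real.sqrt (3 / κ ^ 3) := by
      rw [← Real.sqrt_mul (by positivity)]
      refine Real.sqrt_le_sqrt ?_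
      rw [mul_div_assoc', le_div_iff₀ (by positivity)]
      have h6 : (κ * b) ^ 3 ≤ (a : ℝ) ^ 3 := pow_le_pow_left₀ (by positivity) hκa 3
      have h7 : (b : ℝ) ^ 3 * κ ^ 3 = (κ * b) ^ 3 := by ring
      rw [h7]
      refine h6.trans ?_
      nlinarith [sq_nonneg (a : ℝ), ha0]
    calc R * Real.sqrt ((b : ℝ) ^ 3) ≤ R * (Real.sqrt ((a : ℝ) * (a + 1) * (2 * a + 1) / 6) *
          Real.sqrt (3 / κ ^ 3)) := mul_le_mul_of_nonneg_left h5 hR.le
      _ = _ := by ring
  have p3 : qt (4 * Real.sqrt (1 / κ)) ≤ GA.real E3 := by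
    have e : E3 = {z | 4 * Real.sqrt b ≤ ∑ j ∈ Finset.Icc 1 a, (1 : ℝ) * z j} := by
      ext z
      simp only [hE3, Finset.mem_singleton, forall_eq, Set.mem_ofPred_eq, S_lin]
    rw [e]
    refine tail (Finset.Icc 1 a) (fun _ => (1 : ℝ)) _ _ ?_
    have e2 : ∑ _j ∈ Finset.Icc 1 a, (1 : ℝ) ^ 2 = a := by simp
    rw [e2]
    have h5 : Real.sqrt b ≤ Real.sqrt a * Real.sqrt (1 / κ) := by
      rw [← Real.sqrt_mul ha0.le]
      refine Real.sqrt_le_sqrt ?_
      rw [mul_one_div, le_div_iff₀ hκ]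
      linarith
    calc 4 * Real.sqrt b ≤ 4 * (Real.sqrt a * Real.sqrt (1 / κ)) := by linarith
      _ = _ := by ring
  have p2 : 1 / 2 ≤ GA.real E2 := by
    rcases hab.eq_or_lt with hab' | hab'
    · have e : E2 = Set.univ := by
        ext z
        simp only [hE2, Set.mem_ofPred_eq, Set.mem_univ, iff_true]
        intro j hj
        rw [Finset.mem_Icc] at hj
        have : j = a := by omega
        rw [this, sub_self]
        have := Real.sqrt_nonneg (b : ℝ)
        linarith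
      rw [e, probReal_univ]
      norm_num
    · have h4 := h3 a b (4 * Real.sqrt b) hab' (by positivity)
      have hba : (0 : ℝ) < (b : ℝ) - a := sub_pos.2 (by exact_mod_cast hab')
      have h5 : 4 * Real.exp (-((4 * Real.sqrt b) ^ 2 / (2 * ((b : ℝ) - a)))) ≤ 1 / 2 := by
        have h6 : (8 : ℝ) ≤ (4 * Real.sqrt b) ^ 2 / (2 * ((b : ℝ) - a)) := by
          rw [le_div_iff₀ (by positivity), mul_pow, Real.sq_sqrt hb0.le]
          linarith
        have h7 : Real.exp (-((4 * Real.sqrt b) ^ 2 / (2 * ((b : ℝ) - a)))) ≤ Real.exp (-8) :=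
          Real.exp_le_exp.2 (by linarith)
        have h8 : Real.exp (-8) ≤ 1 / 8 := by
          rw [Real.exp_neg, ← one_div]
          refine one_div_le_one_div_of_le (by norm_num) ?_
          have := Real.add_one_le_exp (8 : ℝ)
          linarith
        linarith
      have hsub : E2ᶜ ⊆ {z | ∃ l ∈ Finset.Icc a b, 4 * Real.sqrt b ≤ |S z l - S z a|} := by
        intro z hz
        simp only [hE2, Set.mem_compl_iff, Set.mem_ofPred_eq] at hz
        push Not at hz
        obtain ⟨j, hj, hj2⟩ := hz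
        refine ⟨j, hj, ?_⟩
        rw [abs_of_nonpos (by have := Real.sqrt_nonneg (b : ℝ); linarith)]
        linarith
      have h9 := measureReal_mono hsub (μ := GA)
      rw [probReal_compl_eq_one_sub g2.1] at h9
      linarith
  -- Harris
  have hH := h1 (Finset.Icc 1 b) (Finset.range 3) (fun i => if i = 0 then E1 else if i = 1 then E2 else E3)
    (fun i _ => by
      split_ifs
      · exact g1.1
      · exact g2.1
      · exact g3.1)
    (fun i _ => by
      split_ifs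
      · exact g1.2.1
      · exact g2.2.1
      · exact g3.2.1)
    (fun i _ => by
      split_ifs
      · exact g1.2.2
      · exact g2.2.2
      · exact g3.2.2)
  have hprod : ∏ i ∈ Finset.range 3, GA.real (if i = 0 then E1 else if i = 1 then E2 else E3) =
      GA.real E1 * GA.real E2 * GA.real E3 := by
    simp [Finset.prod_range_succ]
  rw [hprod] at hH
  have hle : qt (R * Real.sqrt (3 / κ ^ 3)) * (1 / 2) * qt (4 * Real.sqrt (1 / κ)) ≤
      GA.real E1 * GA.real E2 * GA.real E3 :=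
    mul_le_mul (mul_le_mul p1 p2 (by norm_num) measureReal_nonneg) p3 (qt_pos _).le
      (mul_nonneg measureReal_nonneg measureReal_nonneg)
  refine hle.trans (hH.trans (measureReal_mono ?_))
  intro z hz
  simp only [Set.mem_iInter, Finset.mem_range] at hz
  have z1 : z ∈ E1 := by simpa using hz 0 (by norm_num)
  have z2 : z ∈ E2 := by simpa using hz 1 (by norm_num)
  have z3 : z ∈ E3 := by simpa using hz 2 (by norm_num)
  have y1 : R * (b : ℝ) ^ (3 / 2 : ℝ) ≤ Iw z a := z1 a (Finset.mem_singleton_self a)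
  have y3 : 4 * Real.sqrt b ≤ S z a := z3 a (Finset.mem_singleton_self a)
  have hS : ∀ j ∈ Finset.Icc a b, 0 ≤ S z j := by
    intro j hj
    have := z2 j hj
    linarith
  have hIa : ∀ j ∈ Finset.Icc a b, R * (b : ℝ) ^ (3 / 2 : ℝ) ≤ Iw z j := fun j hj =>
    y1.trans (I_up hS (Finset.mem_Icc.1 hj).1 (Finset.mem_Icc.1 hj).2)
  have hRb : 0 ≤ R * (b : ℝ) ^ (3 / 2 : ℝ) := mul_nonneg hR.le (Real.rpow_nonneg hb0.le _)
  exact ⟨fun j hj => hRb.trans (hIa j hj), hIa b (Finset.mem_Icc.2 ⟨hab, le_rfl⟩),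
    hS b (Finset.mem_Icc.2 ⟨hab, le_rfl⟩)⟩

theorem part1 (h1 : S_gharris) (h3 : S_gmaxS) :
    ∃ c : ℝ, 0 < c ∧ ∃ κ1 : ℝ, 0 < κ1 ∧ ∀ n : ℕ, 1 ≤ n → c * (n : ℝ) ^ (-κ1) ≤ aG n := by
  obtain ⟨c0, hc0, h⟩ := part2 h1 h3 (1 / 2) 1 (by norm_num) one_pos
  set c := min c0 (1 / 2) with hc
  have hcp : 0 < c := lt_min hc0 (by norm_num)
  have hc1 : c ≤ 1 / 2 := min_le_right _ _
  have hcl : Real.log c < 0 := Real.log_neg hcp (by linarith)
  have hl2 : 0 < Real.log 2 := Real.log_pos (by norm_num)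
  refine ⟨c, hcp, -Real.log c / Real.log 2, div_pos (by linarith) hl2, fun n hn => ?_⟩
  have hn0 : (0 : ℝ) < n := by exact_mod_cast hn
  set K := Nat.log 2 n with hK
  have hKn : 2 ^ K ≤ n := Nat.pow_log_le_self 2 (by omega)
  -- the events
  have hH := h1 (Finset.Icc 1 (2 ^ (K + 1))) (Finset.range (K + 1))
    (fun k => {z | ∀ j ∈ Finset.Icc (2 ^ k) (2 ^ (k + 1)), (0 : ℝ) ≤ Iw z j})
    (fun k hk => (good_set (b := 2 ^ (K + 1)) (Finset.Icc (2 ^ k) (2 ^ (k + 1))) (fun j z => Iw z j)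
      (fun _ => 0) (fun j hj => good_I ((Finset.mem_Icc.1 hj).2.trans
        (Nat.pow_le_pow_right (by norm_num) (by rw [Finset.mem_range] at hk; omega))))).1)
    (fun k hk => (good_set (b := 2 ^ (K + 1)) (Finset.Icc (2 ^ k) (2 ^ (k + 1))) (fun j z => Iw z j)
      (fun _ => 0) (fun j hj => good_I ((Finset.mem_Icc.1 hj).2.trans
        (Nat.pow_le_pow_right (by norm_num) (by rw [Finset.mem_range] at hk; omega))))).2.1)
    (fun k hk => (good_set (b := 2 ^ (K + 1)) (Finset.Icc (2 ^ k) (2 ^ (k + 1))) (fun j z => Iw z j)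
      (fun _ => 0) (fun j hj => good_I ((Finset.mem_Icc.1 hj).2.trans
        (Nat.pow_le_pow_right (by norm_num) (by rw [Finset.mem_range] at hk; omega))))).2.2)
  have hk1 : ∀ k ∈ Finset.range (K + 1), c ≤
      GA.real {z | ∀ j ∈ Finset.Icc (2 ^ k) (2 ^ (k + 1)), (0 : ℝ) ≤ Iw z j} := by
    intro k _
    have h4 := h (2 ^ k) (2 ^ (k + 1)) Nat.one_le_two_pow
      (Nat.pow_le_pow_right (by norm_num) (by omega)) (by push_cast; rw [pow_succ]; linarith)
    refine (min_le_left _ _).trans (h4.trans (measureReal_mono ?_))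
    intro z hz
    exact hz.1
  have hpr : c ^ (K + 1) ≤ ∏ k ∈ Finset.range (K + 1),
      GA.real {z | ∀ j ∈ Finset.Icc (2 ^ k) (2 ^ (k + 1)), (0 : ℝ) ≤ Iw z j} := by
    have h5 := Finset.prod_le_prod (s := Finset.range (K + 1)) (f := fun _ => c) (fun _ _ => hcp.le) hk1
    rwa [Finset.prod_const, Finset.card_range] at h5
  have hsub : (⋂ k ∈ Finset.range (K + 1),
      {z : ℕ → ℝ | ∀ j ∈ Finset.Icc (2 ^ k) (2 ^ (k + 1)), (0 : ℝ) ≤ Iw z j}) ⊆
      {z | ∀ j ∈ Finset.Icc 1 n, 0 ≤ Iw z j} := by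
    intro z hz j hj
    rw [Finset.mem_Icc] at hj
    simp only [Set.mem_iInter, Finset.mem_range] at hz
    have hlj : Nat.log 2 j < K + 1 := Nat.lt_succ_of_le (Nat.log_mono_right hj.2)
    exact hz (Nat.log 2 j) hlj j (Finset.mem_Icc.2 ⟨Nat.pow_log_le_self 2 (by omega),
      (Nat.lt_pow_succ_log_self (by norm_num) j).le⟩)
  have h6 : c ^ (K + 1) ≤ aG n := hpr.trans (hH.trans (measureReal_mono hsub))
  refine le_trans ?_ h6
  rw [pow_succ, mul_comm]
  refine mul_le_mul_of_nonneg_right ?_ hcp.le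
  -- n ^ (log c / log 2) ≤ c ^ K
  rw [← Real.rpow_natCast c K, Real.rpow_def_of_pos hn0, Real.rpow_def_of_pos hcp]
  refine Real.exp_le_exp.2 ?_
  have h7 : (K : ℝ) * Real.log 2 ≤ Real.log n := by
    rw [← Real.log_pow]
    refine Real.log_le_log (by positivity) ?_
    exact_mod_cast hKn
  have h8 : Real.log n * -(-Real.log c / Real.log 2) = Real.log c * (Real.log n / Real.log 2) := by
    ring
  rw [h8]
  refine mul_le_mul_of_nonpos_left ?_ hcl.le
  rw [le_div_iff₀ hl2]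
  exact h7

theorem gp_acr (h1 : S_gharris) (_h2 : S_gindep) (h3 : S_gmaxS) : Pool.Agent.H174.GP.S_acr :=
  ⟨part1 h1 h3, fun κ R hκ _ hR => part2 h1 h3 κ R hκ hR⟩

end Pool.Agent.H800.GP174
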